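import Pool.Agent.Lib.Vpq.Pick
import Pool.Agent.Lib.Vpq.CntA
import Pool.Agent.Lib.Vpq.CntB
import Pool.Agent.Lib.Vpq.CntC

/-!
# The final count for sets with few close pairs (MP_733c86_co)
-/

set_option autoImplicit false

open Finset Pool.Agent.Vps Pool.Agent.Vpd Pool.Agent.Vpt Pool.Agent.Vpq
open scoped ComplexConjugate

namespace Pool.Agent.Vpn

/-- The numerical condition: `t = sqrt n`. -/
theorem num {n t e B P P' s : ℝ} (ht : 10 ^ 50 ≤ t) (hn : n = t ^ 2) (he0 : 0 ≤ e)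
    (he : 10 ^ 40 * (e + 1) ≤ n) (hP : P ≤ 1 / 10 ^ 30 * t ^ 3) (_hP0 : 0 ≤ P) (hP' : P' ≤ P)
    (hB : B ≤ n * e + 2 * P') (hs : 0 < s) (hsn : 10 ^ 10 ≤ s * n) :
    8 * B + 112 * B + n * (6 * (1 / s + 1)) + n * ((P + n) / t) + 14 * (P' * t) <
      (n / 3000) * (n / 3000) := by
  have ht0 : 0 < t := lt_of_lt_of_le (by norm_num) ht
  have hn0 : 0 < n := by rw [hn]; positivity
  have t1 : 1 / s ≤ n / 10 ^ 10 := by
    rw [div_le_iff₀ hs]
    have : n / 10 ^ 10 * s = s * n / 10 ^ 10 := by ring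
    rw [this, le_div_iff₀ (by norm_num)]
    linarith
  have t3 : t ^ 3 ≤ 1 / 10 ^ 50 * t ^ 4 := by
    have : (10 : ℝ) ^ 50 * t ^ 3 ≤ t * t ^ 3 := mul_le_mul_of_nonneg_right ht (by positivity)
    have h2 : t * t ^ 3 = t ^ 4 := by ring
    rw [h2] at this
    linarith
  have t2 : t ^ 2 ≤ 1 / 10 ^ 50 * t ^ 3 := by
    have : (10 : ℝ) ^ 50 * t ^ 2 ≤ t * t ^ 2 := mul_le_mul_of_nonneg_right ht (by positivity)
    have h2 : t * t ^ 2 = t ^ 3 := by ring
    rw [h2] at this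
    linarith
  have t40 : 0 < t ^ 4 := by positivity
  have t30 : 0 < t ^ 3 := by positivity
  have hnn : n * n = t ^ 4 := by rw [hn]; ring
  have a1 : n * e ≤ 1 / 10 ^ 40 * t ^ 4 := by
    have h1 : n * (10 ^ 40 * (e + 1)) ≤ n * n := mul_le_mul_of_nonneg_left he hn0.le
    rw [hnn] at h1
    have h2 : n * (10 ^ 40 * (e + 1)) = 10 ^ 40 * (n * e) + 10 ^ 40 * n := by ring
    rw [h2] at h1
    linarith
  have a2 : n * (6 * (1 / s + 1)) ≤ 6 / 10 ^ 10 * t ^ 4 + 6 * t ^ 2 := by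
    have h1 : n * (6 * (1 / s + 1)) ≤ n * (6 * (n / 10 ^ 10 + 1)) := by
      apply mul_le_mul_of_nonneg_left _ hn0.le
      linarith
    have h2 : n * (6 * (n / 10 ^ 10 + 1)) = 6 / 10 ^ 10 * (n * n) + 6 * n := by ring
    rw [h2, hnn] at h1
    have h3 : 6 * n = 6 * t ^ 2 := by rw [hn]
    linarith
  have a3 : n * ((P + n) / t) ≤ 2 / 10 ^ 30 * t ^ 4 := by
    have h1 : P + n ≤ 2 / 10 ^ 30 * t ^ 3 := by
      rw [hn]
      linarith
    have h2 : (P + n) / t ≤ 2 / 10 ^ 30 * t ^ 2 := by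
      rw [div_le_iff₀ ht0]
      have : 2 / 10 ^ 30 * t ^ 2 * t = 2 / 10 ^ 30 * t ^ 3 := by ring
      rw [this]
      exact h1
    calc n * ((P + n) / t) ≤ n * (2 / 10 ^ 30 * t ^ 2) := mul_le_mul_of_nonneg_left h2 hn0.le
      _ = 2 / 10 ^ 30 * t ^ 4 := by rw [hn]; ring
  have a4 : 14 * (P' * t) ≤ 14 / 10 ^ 30 * t ^ 4 := by
    have h1 : P' * t ≤ 1 / 10 ^ 30 * t ^ 3 * t := mul_le_mul_of_nonneg_right (hP'.trans hP) ht0.le
    have h2 : 1 / 10 ^ 30 * t ^ 3 * t = 1 / 10 ^ 30 * t ^ 4 := by ring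
    rw [h2] at h1
    linarith
  have a5 : n / 3000 * (n / 3000) = t ^ 4 / 9000000 := by
    have : n / 3000 * (n / 3000) = n * n / 9000000 := by ring
    rw [this, hnn]
  rw [a5]
  linarith

/-- A set in an annulus, on a flat curve up to `s`, with at most `n ^ (3 / 2) / 10 ^ 30` pairs within
`100 s`, has not less than `(1 + 10 ^ (-40)) n / 2` distances. -/
theorem near_contra {X : Finset ℂ} {e : ℝ} (hA : Ann X e (5 * e / X.card))
    (hnE : 10 ^ 40 * (e + 1) ≤ X.card) (hcol : NoCol X) (hcirc : NoCirc X) {s : ℝ} (hs0 : 0 < s)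
    (hs1 : s ≤ 1 / 10 ^ 6) (hsn : 10 ^ 10 ≤ s * X.card) (hSlp : Slp X s) {t : ℝ}
    (ht : 10 ^ 50 ≤ t) (htn : (X.card : ℝ) = t ^ 2)
    (hP : ((CP X (100 * s)).card : ℝ) ≤ 1 / 10 ^ 30 * t ^ 3) : False := by
  classical
  have he0 := hA.nonneg
  have hE0 : 0 < e + 1 := by linarith
  have ht0 : 0 < t := lt_of_lt_of_le (by norm_num) ht
  set n : ℝ := (X.card : ℝ) with hn
  have hcardE : (X.card : ℝ) = n := rfl
  have hnpos : (0 : ℝ) < n := by rw [htn]; positivity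
  set g : ℝ := 2 * 10 ^ 12 * (e + 1) / n with hg
  have hg0 : 0 < g := by positivity
  have hng : n * g = 2 * 10 ^ 12 * (e + 1) := by rw [hg, mul_div_cancel₀ _ hnpos.ne']
  have hg8 : g ≤ 1 / 10 ^ 8 := by
    rw [hg, div_le_iff₀ hnpos]
    linarith
  have hTg : 5 * e / X.card ≤ g / 10 ^ 11 := by
    rw [hcardE, hg, div_div, mul_comm n, ← div_div]
    apply div_le_div_of_nonneg_right _ hnpos.le
    rw [le_div_iff₀ (by norm_num)]
    linarith
  have hng' : 2 * 10 ^ 12 * (e + 1) ≤ X.card * g := hng.ge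
  have hT6 : 5 * e / X.card ≤ 1 / 10 ^ 6 := by
    refine hTg.trans ?_
    rw [div_le_iff₀ (by norm_num)]
    linarith
  have hmany : ∀ u : ℂ, ‖u‖ = 1 → n / 3000 ≤ ((ball X u (1 / 200)).card : ℝ) := by
    intro u hu
    obtain ⟨x, hx, hx1⟩ := density hA hg0 hg8 hTg hng' hu
    have h2 := avg hA (σ := 4 / 1000) (by linarith) (by norm_num) (by norm_num) hx
    have h3 : ball X x (4 / 1000) ⊆ ball X u (1 / 200) := by
      intro y hy
      rw [mem_ball] at hy ⊢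
      refine ⟨hy.1, ?_⟩
      have := dist_triangle y x u
      linarith [hy.2]
    have h4 : ((ball X x (4 / 1000)).card : ℝ) ≤ ((ball X u (1 / 200)).card : ℝ) := by
      exact_mod_cast Finset.card_le_card h3
    rw [hcardE] at h2
    linarith
  have hNF : n / 3000 * (n / 3000) ≤ ((NF X).card : ℝ) := by
    have h1 : ((NF X).card : ℝ) = ((ball X 1 (1 / 200)).card : ℝ) *
        ((ball X Complex.I (1 / 200)).card : ℝ) := by
      unfold NF
      rw [Finset.card_product]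
      push_cast
      rfl
    rw [h1]
    exact mul_le_mul (hmany 1 (by simp)) (hmany Complex.I (by simp)) (by positivity)
      (by positivity)
  have hsub : NF X ⊆ Q2 X ∪ (Q3 X ∪ (Q4 X s ∪ (Q5 X s t ∪ Q6 X s t))) := by
    intro p hp
    by_contra hcon
    simp only [Finset.mem_union, not_or] at hcon
    exact pick_contra hA hg0 hg8 hTg hng' hcol hcirc hs0.le hs1 hSlp hp hcon.1 hcon.2.1
      hcon.2.2.1 hcon.2.2.2.1 hcon.2.2.2.2
  have hcount : ((NF X).card : ℝ) ≤ (Q2 X).card + ((Q3 X).card + ((Q4 X s).card +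
      ((Q5 X s t).card + (Q6 X s t).card))) := by
    have h1 := Finset.card_le_card hsub
    have h2 := Finset.card_union_le (Q2 X) (Q3 X ∪ (Q4 X s ∪ (Q5 X s t ∪ Q6 X s t)))
    have h3 := Finset.card_union_le (Q3 X) (Q4 X s ∪ (Q5 X s t ∪ Q6 X s t))
    have h4 := Finset.card_union_le (Q4 X s) (Q5 X s t ∪ Q6 X s t)
    have h5 := Finset.card_union_le (Q5 X s t) (Q6 X s t)
    have h6 : (NF X).card ≤ (Q2 X).card + ((Q3 X).card + ((Q4 X s).card +
      ((Q5 X s t).card + (Q6 X s t).card))) := by omega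
    exact_mod_cast h6
  set B : ℝ := ∑ x ∈ X, ((BadR X x).card : ℝ) with hB
  have hBle : B ≤ n * e + 2 * (CP X (50 * s)).card := by
    have h1 : B ≤ ∑ x ∈ X, (e + ((coin X x).card : ℝ)) :=
      Finset.sum_le_sum fun x hx => card_BadR hA.toSys hx
    have h2 := sum_coin_pairs hA hT6 hcol hSlp
    rw [Finset.sum_add_distrib, Finset.sum_const, nsmul_eq_mul] at h1
    linarith
  have hPP : ((CP X (50 * s)).card : ℝ) ≤ ((CP X (100 * s)).card : ℝ) := by
    have : CP X (50 * s) ⊆ CP X (100 * s) := by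
      intro p hp
      unfold CP at hp ⊢
      rw [Finset.mem_filter] at hp ⊢
      exact ⟨hp.1, hp.2.1, hp.2.2.trans (by linarith)⟩
    exact_mod_cast Finset.card_le_card this
  have q2 := card_Q2 hA.toSys
  have q3 := card_Q3 hA.toSys
  have q4 := card_Q4 hA.toSys hs0
  have q5 := card_Q5 (X := X) hs0.le ht0
  have q6 := card_Q6 hA hT6 hs0.le hs1 hSlp ht0.le
  have hfin := num ht htn he0 hnE hP (by positivity) hPP hBle hs0 hsn
  rw [hcardE] at q4 q5
  linarith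

end Pool.Agent.Vpn
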