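import Pool.Agent.Lib.Vpt.Slp

/-!
# Points near a convex curve or a flat curve (MP_733c86_co)
-/

set_option autoImplicit false

open Finset Pool.Agent.Vps Pool.Agent.Vpt
open scoped ComplexConjugate

namespace Pool.Agent.Vpn

/-- `Re (a conj b) ≤ |a| |b|`. -/
theorem re_mul_conj_le (a b : ℂ) : (a * conj b).re ≤ ‖a‖ * ‖b‖ := by
  have h1 : (a * conj b).re ≤ ‖a * conj b‖ := Complex.re_le_norm _
  rwa [norm_mul, Complex.norm_conj] at h1

theorem abs_re_mul_conj_le (a b : ℂ) : |(a * conj b).re| ≤ ‖a‖ * ‖b‖ := by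
  have h1 : |(a * conj b).re| ≤ ‖a * conj b‖ := Complex.abs_re_le_norm _
  rwa [norm_mul, Complex.norm_conj] at h1

theorem re_self (a : ℂ) : (a * conj a).re = ‖a‖ ^ 2 := by
  rw [Complex.mul_conj, Complex.ofReal_re, Complex.normSq_eq_norm_sq]

theorem norm_sub_sq' (a b : ℂ) : ‖a - b‖ ^ 2 = ‖a‖ ^ 2 + ‖b‖ ^ 2 - 2 * (a * conj b).re := by
  rw [← re_self, ← re_self, ← re_self]
  simp only [map_sub, Complex.mul_re, Complex.sub_re, Complex.sub_im, Complex.conj_re,
    Complex.conj_im]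
  ring

/-- From the squares of the norms to the norms. -/
theorem norm_diff {p q A : ℝ} (hp : 0 ≤ p) (hq : 0 ≤ q) (h1 : 99 / 100 ≤ p ^ 2)
    (h2 : 99 / 100 ≤ q ^ 2) (hA : 0 ≤ A) (h : p ^ 2 - q ^ 2 ≤ A * (198 / 100)) : p - q ≤ A := by
  have hp' : 99 / 100 ≤ p := by
    by_contra hc
    push Not at hc
    have : p ^ 2 ≤ p := by
      rw [sq]
      exact mul_le_of_le_one_left hp (by linarith)
    linarith
  have hq' : 99 / 100 ≤ q := by
    by_contra hc
    push Not at hc
    have : q ^ 2 ≤ q := by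
      rw [sq]
      exact mul_le_of_le_one_left hq (by linarith)
    linarith
  by_cases hle : p - q ≤ 0
  · linarith
  · push Not at hle
    have h3 : (p - q) * (198 / 100) ≤ (p - q) * (p + q) :=
      mul_le_mul_of_nonneg_left (by linarith) hle.le
    have h4 : (p - q) * (p + q) = p ^ 2 - q ^ 2 := by ring
    have h5 : (p - q) * (198 / 100) ≤ A * (198 / 100) := by linarith
    exact le_of_mul_le_mul_right h5 (by norm_num)

/-- The one-sided case. -/
theorem one_sided {X : Finset ℂ} {e T : ℝ} (h : Ann X e T) {g : ℝ} (hg0 : 0 < g)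
    (hg : g ≤ 1 / 10 ^ 8) (hT : T ≤ g / 10 ^ 11) (hn : 2 * 10 ^ 12 * (e + 1) ≤ X.card * g)
    {θ : ℝ} (hθ : θ ≤ 1 / 10 ^ 6) {y : ℂ} (hy : y ∈ X) {w : ℂ} (hw : ‖w‖ = 1)
    (hs : ∀ y' ∈ X, ((y' - y) * conj w).re ≤ θ) {y' : ℂ} (hy' : y' ∈ X)
    (hd : dist y y' ≤ 1 / 100) : ‖y'‖ - ‖y‖ ≤ 1 / 9 * dist y y' + 2 * θ := by
  have hT8 : T ≤ 1 / 10 ^ 8 := by
    refine hT.trans ?_
    rw [div_le_iff₀ (by norm_num)]
    linarith
  have hθ0 : 0 ≤ θ := by
    have := hs y hy
    simpa using this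
  obtain ⟨x, hx, hxw⟩ := density h hg0 hg hT hn hw
  have h1 := hs x hx
  have h2 : 1 - 3 * g ≤ (x * conj w).re := by
    have a1 : x * conj w = w * conj w - (w - x) * conj w := by ring
    have a2 : (x * conj w).re = (w * conj w).re - ((w - x) * conj w).re := by
      rw [a1, Complex.sub_re]
    have a3 := re_mul_conj_le (w - x) w
    rw [hw, mul_one, ← dist_eq_norm, dist_comm] at a3
    rw [a2, re_self, hw]
    linarith
  have h3 : ((x - y) * conj w).re = (x * conj w).re - (y * conj w).re := by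
    rw [sub_mul, Complex.sub_re]
  have hyn := abs_le.1 (h.ann y hy)
  have hyn' := abs_le.1 (h.ann y' hy')
  have hyw : ‖y - w‖ ^ 2 ≤ (1 / 400) ^ 2 := by
    rw [norm_sub_sq', hw]
    linarith
  have hyw' : ‖y - w‖ ≤ 1 / 400 :=
    (pow_le_pow_iff_left₀ (norm_nonneg _) (by norm_num) (by norm_num)).1 hyw
  have h4 : ‖y'‖ ^ 2 - ‖y‖ ^ 2 = 2 * ((y' - y) * conj y).re + ‖y' - y‖ ^ 2 := by
    have a1 := norm_sub_sq' y' y
    have a2 : ((y' - y) * conj y).re = (y' * conj y).re - (y * conj y).re := by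
      rw [sub_mul, Complex.sub_re]
    rw [a2, re_self]
    linarith
  have h5 : ((y' - y) * conj y).re = ((y' - y) * conj w).re + ((y' - y) * conj (y - w)).re := by
    rw [← Complex.add_re, ← mul_add, ← map_add, add_sub_cancel]
  have h6 := re_mul_conj_le (y' - y) (y - w)
  have h7 := hs y' hy'
  have hdd : ‖y' - y‖ = dist y y' := by rw [dist_comm, dist_eq_norm]
  rw [hdd] at h4 h6
  set d := dist y y' with hdef
  have hd0 : 0 ≤ d := dist_nonneg
  have h8 : d * ‖y - w‖ ≤ d * (1 / 400) := mul_le_mul_of_nonneg_left hyw' hd0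
  have h9 : d ^ 2 ≤ d * (1 / 100) := by rw [sq]; exact mul_le_mul_of_nonneg_left hd hd0
  refine norm_diff (norm_nonneg _) (norm_nonneg _) (by linarith) (by linarith) (by positivity) ?_
  rw [h4, h5]
  linarith

/-- The direction of the flat double sector is almost tangential. -/
theorem beta_small {X : Finset ℂ} {e T : ℝ} (h : Ann X e T) {g : ℝ} (hg0 : 0 < g)
    (hg : g ≤ 1 / 10 ^ 8) (hT : T ≤ g / 10 ^ 11) (hn : 2 * 10 ^ 12 * (e + 1) ≤ X.card * g)
    {θ δ : ℝ} (hδ0 : 0 < δ) (hδ1 : δ ≤ 1 / 100) (hθ : θ ≤ δ / 10 ^ 4) (hgδ : g ≤ δ / 10 ^ 6)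
    {y : ℂ} (hy : y ∈ X) {w : ℂ} (hw : ‖w‖ = 1)
    (hs : ∀ y' ∈ X, dist y' y ≤ δ → |((y' - y) * conj w).re| ≤ θ + 1 / 25 * dist y' y)
    {u : ℂ} (hu : ‖u‖ = 1) (huy : y = ‖y‖ * u) :
    |(u * Complex.I * conj w).re| ≤ 43 / 1000 := by
  have hT8 : T ≤ g := by
    refine hT.trans ?_
    rw [div_le_iff₀ (by norm_num)]
    linarith
  have hyn := abs_le.1 (h.ann y hy)
  set t : ℝ := δ / 2 with ht
  have ht0 : 0 < t := by positivity
  have ht1 : t ≤ 1 / 200 := by rw [ht]; linarith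
  have hyu : ‖y - u‖ ≤ g := by
    have h1 : y - u = ((‖y‖ - 1 : ℝ) : ℂ) * u := by
      push_cast
      linear_combination huy
    rw [h1, norm_mul, hu, mul_one, Complex.norm_real, Real.norm_eq_abs]
    have h2 : |‖y‖ - 1| ≤ |‖y‖ ^ 2 - 1| := by
      have : ‖y‖ ^ 2 - 1 = (‖y‖ - 1) * (‖y‖ + 1) := by ring
      rw [this, abs_mul]
      have h5 : 1 ≤ |‖y‖ + 1| := by
        rw [abs_of_nonneg (by positivity)]
        linarith [norm_nonneg y]
      exact le_mul_of_one_le_right (abs_nonneg _) h5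
    exact h2.trans ((h.ann y hy).trans hT8)
  -- the two points
  have key : ∀ ε : ℝ, |ε| = t → ∃ x ∈ X, dist x (u * Complex.exp (ε * Complex.I)) ≤ 3 * g ∧
      |((x - y) * conj w).re| ≤ θ + 1 / 25 * (t + 4 * g) := by
    intro ε hε
    have hunit : ‖u * Complex.exp (ε * Complex.I)‖ = 1 := by
      rw [norm_mul, hu, Complex.norm_exp_ofReal_mul_I, one_mul]
    obtain ⟨x, hx, hxu⟩ := density h hg0 hg hT hn hunit
    refine ⟨x, hx, hxu, ?_⟩
    have h1 : ‖u * Complex.exp (ε * Complex.I) - u‖ ≤ t := by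
      have h2 : u * Complex.exp (ε * Complex.I) - u = u * (Complex.exp (ε * Complex.I) - 1) := by
        ring
      rw [h2, norm_mul, hu, one_mul]
      have h3 := norm_exp_sub_le ε 0
      simp only [Complex.ofReal_zero, zero_mul, Complex.exp_zero, sub_zero] at h3
      exact h3.trans hε.le
    have h2 : dist x y ≤ t + 4 * g := by
      have h3 : dist x y ≤ dist x (u * Complex.exp (ε * Complex.I)) +
          dist (u * Complex.exp (ε * Complex.I)) u + dist u y := dist_triangle4 _ _ _ _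
      rw [dist_eq_norm (u * Complex.exp (ε * Complex.I)) u, dist_comm u y, dist_eq_norm y u] at h3
      linarith
    have h3 : dist x y ≤ δ := by
      refine h2.trans ?_
      rw [ht]
      linarith
    refine (hs x hx h3).trans ?_
    linarith
  obtain ⟨x1, _, hx1, hb1⟩ := key t (abs_of_pos ht0)
  obtain ⟨x2, _, hx2, hb2⟩ := key (-t) (by rw [abs_neg, abs_of_pos ht0])
  have e1 : Complex.exp ((t : ℂ) * Complex.I) - Complex.exp (((-t : ℝ) : ℂ) * Complex.I) =
      ((2 * Real.sin t : ℝ) : ℂ) * Complex.I := by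
    rw [Complex.exp_mul_I, Complex.exp_mul_I]
    push_cast
    rw [Complex.cos_neg, Complex.sin_neg]
    ring
  have e2 : (2 * Real.sin t) * (u * Complex.I * conj w).re =
      ((x1 - y) * conj w).re - ((x2 - y) * conj w).re -
        ((x1 - u * Complex.exp ((t : ℂ) * Complex.I)) * conj w).re +
          ((x2 - u * Complex.exp (((-t : ℝ) : ℂ) * Complex.I)) * conj w).re := by
    have h1 : (((2 * Real.sin t : ℝ) : ℂ) * (u * Complex.I * conj w)).re =
        (2 * Real.sin t) * (u * Complex.I * conj w).re := Complex.re_ofReal_mul _ _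
    rw [← h1, ← Complex.sub_re, ← Complex.sub_re, ← Complex.add_re]
    congr 1
    linear_combination (-(u * conj w)) * e1
  have f1 := abs_re_mul_conj_le (x1 - u * Complex.exp ((t : ℂ) * Complex.I)) w
  have f2 := abs_re_mul_conj_le (x2 - u * Complex.exp (((-t : ℝ) : ℂ) * Complex.I)) w
  rw [hw, mul_one, ← dist_eq_norm] at f1 f2
  have f1' := abs_le.1 (f1.trans hx1)
  have f2' := abs_le.1 (f2.trans hx2)
  have b1 := abs_le.1 hb1
  have b2 := abs_le.1 hb2
  have hsin : 99 / 100 * t ≤ Real.sin t := by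
    have h1 := Real.sin_gt_sub_cube ht0
    have h2 : t ^ 3 / 6 ≤ 1 / 100 * t := by
      have : t ^ 3 = t * (t * t) := by ring
      rw [this]
      have h3 : t * t ≤ 1 / 200 * (1 / 200) := mul_le_mul ht1 ht1 ht0.le (by norm_num)
      have h4 : t * (t * t) ≤ t * (1 / 200 * (1 / 200)) := mul_le_mul_of_nonneg_left h3 ht0.le
      linarith
    linarith
  have hsin0 : 0 < Real.sin t := by
    have : 0 < 99 / 100 * t := by positivity
    linarith
  have hbound : |2 * Real.sin t * (u * Complex.I * conj w).re| ≤ 2 * (θ + 1 / 25 * (t + 4 * g)) +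
      6 * g := by
    rw [e2, abs_le]
    constructor <;> linarith
  rw [abs_mul, abs_of_pos (by positivity)] at hbound
  set B := |(u * Complex.I * conj w).re| with hB
  have hB0 : 0 ≤ B := abs_nonneg _
  have h3 : 2 * (99 / 100 * t) * B ≤ 2 * Real.sin t * B := by
    apply mul_le_mul_of_nonneg_right _ hB0
    linarith
  have h4 : 2 * (θ + 1 / 25 * (t + 4 * g)) + 6 * g ≤ 2 * (99 / 100 * t) * (43 / 1000) := by
    have g1 : θ ≤ t * (2 / 10 ^ 4) := by rw [ht]; linarith
    have g2 : g ≤ t * (2 / 10 ^ 6) := by rw [ht]; linarith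
    linarith
  have h5 : 2 * (99 / 100 * t) * B ≤ 2 * (99 / 100 * t) * (43 / 1000) := by linarith
  exact le_of_mul_le_mul_left h5 (by positivity)

/-- The two-sided case. -/
theorem two_sided {X : Finset ℂ} {e T : ℝ} (h : Ann X e T) {g : ℝ} (hg0 : 0 < g)
    (hg : g ≤ 1 / 10 ^ 8) (hT : T ≤ g / 10 ^ 11) (hn : 2 * 10 ^ 12 * (e + 1) ≤ X.card * g)
    {θ δ : ℝ} (hθ0 : 0 ≤ θ) (hδ0 : 0 < δ) (hδ1 : δ ≤ 1 / 100) (hθ : θ ≤ δ / 10 ^ 4)
    (hgδ : g ≤ δ / 10 ^ 6) {y : ℂ} (hy : y ∈ X) {w : ℂ} (hw : ‖w‖ = 1)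
    (hs : ∀ y' ∈ X, dist y' y ≤ δ → |((y' - y) * conj w).re| ≤ θ + 1 / 25 * dist y' y)
    {y' : ℂ} (hy' : y' ∈ X) (hd : dist y y' ≤ 1 / 100) :
    ‖y'‖ - ‖y‖ ≤ 1 / 9 * dist y y' + 2 * θ := by
  have hT8 : T ≤ g := by
    refine hT.trans ?_
    rw [div_le_iff₀ (by norm_num)]
    linarith
  have hyn := abs_le.1 (h.ann y hy)
  have hyn' := abs_le.1 (h.ann y' hy')
  have hd0 : 0 ≤ dist y y' := dist_nonneg
  by_cases hdδ : dist y' y ≤ δ
  swap
  · push Not at hdδ
    rw [dist_comm] at hdδ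
    refine norm_diff (norm_nonneg _) (norm_nonneg _) (by linarith) (by linarith) (by positivity) ?_
    linarith
  have hs' := hs y' hy' hdδ
  have hy0 : 0 < ‖y‖ := by
    by_contra hc
    push Not at hc
    have : ‖y‖ = 0 := le_antisymm hc (norm_nonneg _)
    rw [this] at hyn
    norm_num at hyn hg
    linarith
  have hny : ‖y‖ ≤ 1 + g := by
    by_contra hc
    push Not at hc
    have h1 : (1 + g) * 1 ≤ ‖y‖ * ‖y‖ := mul_le_mul hc.le (by linarith) (by norm_num) hy0.le
    rw [sq] at hyn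
    linarith
  set u : ℂ := y / ‖y‖ with hu
  have hun : ‖u‖ = 1 := by
    rw [hu, norm_div, Complex.norm_real, norm_norm, div_self hy0.ne']
  have hyu : y = ‖y‖ * u := by
    rw [hu, mul_div_cancel₀]
    exact_mod_cast hy0.ne'
  have hβ := beta_small h hg0 hg hT hn hδ0 hδ1 hθ hgδ hy hw hs hun hyu
  set β := (u * Complex.I * conj w).re with hβd
  set α := (u * conj w).re with hαd
  -- coordinates
  have hαβ : α ^ 2 + β ^ 2 = 1 := by
    have h1 : ‖u * conj w‖ ^ 2 = 1 := by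
      rw [norm_mul, Complex.norm_conj, hun, hw]; norm_num
    rw [← Complex.normSq_eq_norm_sq, Complex.normSq_apply] at h1
    have h2 : β = -(u * conj w).im := by
      rw [hβd]
      have : u * Complex.I * conj w = (u * conj w) * Complex.I := by ring
      rw [this, Complex.mul_I_re]
    rw [h2]
    rw [← hαd] at h1
    linarith
  have hα : 998 / 1000 ≤ |α| := by
    by_contra hc
    push Not at hc
    have h1 : α ^ 2 ≤ (998 / 1000) ^ 2 := by
      rw [← sq_abs α]
      exact pow_le_pow_left₀ (abs_nonneg _) hc.le 2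
    have h2 : β ^ 2 ≤ (43 / 1000) ^ 2 := by
      rw [← sq_abs β]
      exact pow_le_pow_left₀ (abs_nonneg _) hβ 2
    norm_num at h1 h2
    linarith
  set a := ((y' - y) * conj u).re with ha
  set b := ((y' - y) * conj u).im with hb
  have hdec : ((y' - y) * conj w).re = a * α + b * β := by
    have h1 : (y' - y) * conj w = ((y' - y) * conj u) * (u * conj w) := by
      have h2 : conj u * u = 1 := by
        rw [mul_comm, Complex.mul_conj, Complex.normSq_eq_norm_sq, hun]; simp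
      linear_combination (-(y' - y) * conj w) * h2
    have h3 : β = -(u * conj w).im := by
      rw [hβd]
      have : u * Complex.I * conj w = (u * conj w) * Complex.I := by ring
      rw [this, Complex.mul_I_re]
    rw [h1, Complex.mul_re, h3]
    ring
  have hdd : ‖(y' - y) * conj u‖ = dist y y' := by
    rw [norm_mul, Complex.norm_conj, hun, mul_one, dist_comm, dist_eq_norm]
  have hbd : |b| ≤ dist y y' := by
    rw [← hdd]
    exact Complex.abs_im_le_norm _
  rw [dist_comm y' y] at hs'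
  set d := dist y y' with hdef
  have haα : |a * α| ≤ θ + 84 / 1000 * d := by
    have h1 : a * α = ((y' - y) * conj w).re - b * β := by rw [hdec]; ring
    have h2 : |b * β| ≤ d * (43 / 1000) := by
      rw [abs_mul]
      exact mul_le_mul hbd hβ (abs_nonneg _) hd0
    have h3 := abs_le.1 h2
    have h4 := abs_le.1 hs'
    rw [h1, abs_le]
    constructor <;> linarith
  have haa : |a| * (998 / 1000) ≤ θ + 84 / 1000 * d := by
    rw [abs_mul] at haα
    exact (mul_le_mul_of_nonneg_left hα (abs_nonneg _)).trans haα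
  have hale : a ≤ |a| := le_abs_self a
  have h4 : ‖y'‖ ^ 2 - ‖y‖ ^ 2 = 2 * ‖y‖ * a + d ^ 2 := by
    have a1 := norm_sub_sq' y' y
    have a2 : ((y' - y) * conj y).re = (y' * conj y).re - (y * conj y).re := by
      rw [sub_mul, Complex.sub_re]
    rw [re_self] at a2
    have a3 : ((y' - y) * conj y).re = ‖y‖ * a := by
      have hcy : conj y = (‖y‖ : ℂ) * conj u := by
        calc conj y = conj ((‖y‖ : ℂ) * u) := by rw [← hyu]
          _ = (‖y‖ : ℂ) * conj u := by rw [map_mul, Complex.conj_ofReal]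
      have : (y' - y) * conj y = (‖y‖ : ℂ) * ((y' - y) * conj u) := by
        rw [hcy]
        ring
      rw [this, Complex.re_ofReal_mul]
    have a4 : ‖y' - y‖ = d := by rw [hdef, dist_comm, dist_eq_norm]
    rw [a4] at a1
    linarith
  have h9 : d ^ 2 ≤ d * (1 / 100) := by rw [sq]; exact mul_le_mul_of_nonneg_left hd hd0
  have h10 : 2 * ‖y‖ * a ≤ 201 / 100 * |a| := by
    have h11 : 2 * ‖y‖ * a ≤ 2 * ‖y‖ * |a| := mul_le_mul_of_nonneg_left hale (by positivity)
    have h12 : 2 * ‖y‖ * |a| ≤ 201 / 100 * |a| :=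
      mul_le_mul_of_nonneg_right (by linarith) (abs_nonneg _)
    linarith
  refine norm_diff (norm_nonneg _) (norm_nonneg _) (by linarith) (by linarith) (by positivity) ?_
  rw [h4]
  linarith

/-- If every point of `X` is within `θ` of a line such that either `X` is on one side of it, or
the points of `X` within `δ` are in a flat double sector around it, up to `θ`, then `X` is on a curve
of slope `1 / 9` up to `2 θ`. -/
theorem slp_of_strip {X : Finset ℂ} {e T : ℝ} (h : Ann X e T) {g : ℝ} (hg0 : 0 < g)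
    (hg : g ≤ 1 / 10 ^ 8) (hT : T ≤ g / 10 ^ 11) (hn : 2 * 10 ^ 12 * (e + 1) ≤ X.card * g)
    {θ δ : ℝ} (hθ0 : 0 ≤ θ) (hδ0 : 0 < δ) (hδ1 : δ ≤ 1 / 100) (hθ : θ ≤ δ / 10 ^ 4)
    (hgδ : g ≤ δ / 10 ^ 6)
    (hst : ∀ y ∈ X, ∃ w : ℂ, ‖w‖ = 1 ∧ ((∀ y' ∈ X, ((y' - y) * conj w).re ≤ θ) ∨
      ∀ y' ∈ X, dist y' y ≤ δ → |((y' - y) * conj w).re| ≤ θ + 1 / 25 * dist y' y)) :
    Slp X (2 * θ) := by
  have key : ∀ y ∈ X, ∀ y' ∈ X, dist y y' ≤ 1 / 100 →
      ‖y'‖ - ‖y‖ ≤ 1 / 9 * dist y y' + 2 * θ := by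
    intro y hy y' hy' hd
    obtain ⟨w, hw, h1 | h1⟩ := hst y hy
    · exact one_sided h hg0 hg hT hn (by linarith) hy hw h1 hy' hd
    · exact two_sided h hg0 hg hT hn hθ0 hδ0 hδ1 hθ hgδ hy hw h1 hy' hd
  intro y hy y' hy' hd
  rw [abs_le]
  constructor
  · have := key y hy y' hy' hd
    linarith
  · have := key y' hy' y hy (by rw [dist_comm]; exact hd)
    rw [dist_comm y' y] at this
    linarith

end Pool.Agent.Vpn
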