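import Pool.Agent.Lib.Vps.Wrap
import Pool.Agent.Lib.Vpd.Final
import Pool.Agent.Lib.Vpn.SlpStrip
import Pool.Agent.Lib.Vpn.Count

/-!
# Sets near a convex curve or a flat curve (MP_733c86_co)
-/

set_option autoImplicit false

open Finset Pool.Agent.Vps Pool.Agent.Vpd Pool.Agent.Vpt
open scoped ComplexConjugate

namespace Pool.Agent.Vpn

theorem final_near {n : ℕ} {δ : ℝ} (hδ0 : 0 < δ) (hδ1 : δ ≤ 1 / 100) (hn : 10 ^ 100 ≤ n)
    (hnδ : 10 ^ 60 ≤ δ * n) {x : Fin n → EuclideanSpace ℝ (Fin 2)}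
    (hx : Function.Injective x)
    (hcol : ∀ i j k : Fin n, i ≠ j → i ≠ k → j ≠ k →
      ¬ Collinear ℝ ({x i, x j, x k} : Set (EuclideanSpace ℝ (Fin 2))))
    (hcirc : ∀ i j k l : Fin n, i ≠ j → i ≠ k → i ≠ l → j ≠ k → j ≠ l → k ≠ l →
      ¬ EuclideanGeometry.Cospherical
          ({x i, x j, x k, x l} : Set (EuclideanSpace ℝ (Fin 2))))
    (hvalid : ∀ i : Fin n, ∀ r : ℝ,
      (Finset.univ.filter (fun j : Fin n => j ≠ i ∧ dist (x i) (x j) = r)).card ≤ 2)
    {η L : ℝ} (hL : ∀ i j : Fin n, dist (x i) (x j) ≤ L) (hLη : L ≤ n * η)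
    (hst : ∀ i : Fin n, ∃ v : EuclideanSpace ℝ (Fin 2), ‖v‖ = 1 ∧
      ((∀ j : Fin n, inner ℝ (x j - x i) v ≤ η) ∨
        ∀ j : Fin n, dist (x i) (x j) ≤ δ * L →
          |inner ℝ (x j - x i) v| ≤ η + 1 / 25 * dist (x i) (x j)))
    (hP : ((Finset.univ.filter (fun p : Fin n × Fin n =>
      p.1 ≠ p.2 ∧ dist (x p.1) (x p.2) ≤ 10 ^ 17 / δ * η)).card : ℝ) ≤
        1 / 10 ^ 30 * (n : ℝ) ^ ((3 : ℝ) / 2)) :
    (1 + δ / 10 ^ 50) * ((n : ℝ) / 2) ≤
      (((Finset.univ.filter (fun p : Fin n × Fin n => p.1 ≠ p.2)).image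
        (fun p : Fin n × Fin n => dist (x p.1) (x p.2))).card : ℝ) := by
  classical
  by_contra hlt
  push Not at hlt
  have hn' : (10 : ℝ) ^ 100 ≤ n := by exact_mod_cast hn
  have hn2 : 2 ≤ n := le_trans (by norm_num) hn
  have hnpos : (0 : ℝ) < n := lt_of_lt_of_le (by norm_num) hn'
  obtain ⟨f, r, hr, hf, h0, h1⟩ := exists_similarity hn2 x hx
  set D := (((Finset.univ.filter (fun p : Fin n × Fin n => p.1 ≠ p.2)).image
            (fun p : Fin n × Fin n => dist (x p.1) (x p.2))).card : ℝ) with hD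
  have hinj : Function.Injective (fun i => f (x i)) := fun i j hij => hx (f.injective hij)
  set X : Finset ℂ := univ.image fun i => f (x i) with hX
  have hcard : X.card = n := by
    rw [hX, Finset.card_image_of_injective _ hinj]; simp
  have hsys := sys_of (le_trans (by norm_num) hn2) hx f hr hf hvalid
  rw [← hD, ← hX] at hsys
  set e := 2 * D - (n - 1) with he
  have he0 : 0 ≤ e := hsys.nonneg
  have hnEδ : 10 ^ 40 * (e + 1) ≤ δ * n := by
    have h2 : e + 1 ≤ δ / 10 ^ 50 * n + 2 := by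
      rw [he]
      have : (1 + δ / 10 ^ 50) * ((n : ℝ) / 2) = n / 2 + δ / 10 ^ 50 * n / 2 := by ring
      rw [this] at hlt
      linarith
    have h3 : (10 : ℝ) ^ 40 * (e + 1) ≤ 10 ^ 40 * (δ / 10 ^ 50 * n + 2) :=
      mul_le_mul_of_nonneg_left h2 (by positivity)
    have h4 : (10 : ℝ) ^ 40 * (δ / 10 ^ 50 * n + 2) ≤ δ * n := by
      have h5 : (10 : ℝ) ^ 40 * (δ / 10 ^ 50 * n + 2) = 1 / 10 ^ 10 * (δ * n) + 2 * 10 ^ 40 := by
        ring
      rw [h5]
      linarith
    linarith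
  have hnE : 10 ^ 40 * (e + 1) ≤ (n : ℝ) := by
    have h2 : δ * n ≤ 1 * n := mul_le_mul_of_nonneg_right (by linarith) hnpos.le
    linarith
  have hne : X.Nonempty := by
    rw [← Finset.card_pos, hcard]; omega
  have hA : Ann X e (5 * e / X.card) := annulus hsys hne (by
      rw [hX, Finset.sum_image (fun a _ b _ hab => hinj hab)]; exact h0) (by
      rw [hcard, hX, Finset.sum_image (fun a _ b _ hab => hinj hab), h1]) (by
      rw [hcard]; linarith)
  have hT : 5 * e / (X.card : ℝ) ≤ 1 / 100 := by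
    rw [hcard, div_le_iff₀ hnpos]
    linarith
  have hmemX : ∀ y ∈ X, ∃ i, f (x i) = y := by
    intro y hy
    rw [hX, Finset.mem_image] at hy
    obtain ⟨i, _, hi⟩ := hy
    exact ⟨i, hi⟩
  set θ : ℝ := r * η with hθ
  -- the diameter is at least `1`
  have hrL : 1 ≤ r * L := by
    obtain ⟨y, hy⟩ := hne
    obtain ⟨z, hz, hyz⟩ := exists_far hA hT hy
    obtain ⟨i, rfl⟩ := hmemX y hy
    obtain ⟨j, rfl⟩ := hmemX z hz
    have h2 : dist (f (x i)) (f (x j)) ≤ r * L := by
      rw [hf]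
      exact mul_le_mul_of_nonneg_left (hL i j) hr.le
    by_contra hc
    push Not at hc
    have h3 : dist (f (x i)) (f (x j)) ^ 2 ≤ 1 :=
      pow_le_one₀ dist_nonneg (h2.trans hc.le)
    linarith
  have hθn : 1 ≤ n * θ := by
    have h2 : r * L ≤ r * (n * η) := mul_le_mul_of_nonneg_left hLη hr.le
    have h3 : r * (n * η) = n * θ := by rw [hθ]; ring
    linarith
  have hθ0 : 0 < θ := by
    by_contra hc
    push Not at hc
    have : (n : ℝ) * θ ≤ 0 := mul_nonpos_of_nonneg_of_nonpos hnpos.le hc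
    linarith
  have hη0 : 0 < η := by
    by_contra hc
    push Not at hc
    have : r * η ≤ 0 := mul_nonpos_of_nonneg_of_nonpos hr.le hc
    linarith
  -- the square root of `n`
  set t : ℝ := Real.sqrt n with ht
  have ht2 : t ^ 2 = n := Real.sq_sqrt hnpos.le
  have ht0 : 0 ≤ t := Real.sqrt_nonneg _
  have ht50 : 10 ^ 50 ≤ t := by
    rw [ht]
    apply Real.le_sqrt_of_sq_le
    calc ((10 : ℝ) ^ 50) ^ 2 = (10 : ℝ) ^ 100 := by rw [← pow_mul]
      _ ≤ (n : ℝ) := hn'
  have ht3 : (n : ℝ) ^ ((3 : ℝ) / 2) = t ^ 3 := by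
    rw [ht, Real.sqrt_eq_rpow, ← Real.rpow_natCast, ← Real.rpow_mul hnpos.le]
    norm_num
  rw [ht3] at hP
  -- `θ` is small
  have hθ16 : θ ≤ δ / 10 ^ 16 := by
    by_contra hc
    push Not at hc
    have hall : (Finset.univ.filter (fun p : Fin n × Fin n => p.1 ≠ p.2 ∧
        dist (x p.1) (x p.2) ≤ 10 ^ 17 / δ * η)) = (Finset.univ : Finset (Fin n)).offDiag := by
      ext p
      rw [Finset.mem_filter, Finset.mem_offDiag]
      simp only [Finset.mem_univ, true_and, and_iff_left_iff_imp]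
      intro _
      have h2 : r * dist (x p.1) (x p.2) ≤ r * (10 ^ 17 / δ * η) := by
        rw [← hf]
        have a1 := (abs_le.1 (hA.ann (f (x p.1)) (Finset.mem_image_of_mem _
          (Finset.mem_univ _)))).2
        have a2 := (abs_le.1 (hA.ann (f (x p.2)) (Finset.mem_image_of_mem _
          (Finset.mem_univ _)))).2
        have b1 : ‖f (x p.1)‖ ≤ 2 := by
          by_contra hcc
          push Not at hcc
          nlinarith
        have b2 : ‖f (x p.2)‖ ≤ 2 := by
          by_contra hcc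
          push Not at hcc
          nlinarith
        have h3 : dist (f (x p.1)) (f (x p.2)) ≤ 4 := by
          rw [dist_eq_norm]
          have := norm_sub_le (f (x p.1)) (f (x p.2))
          linarith
        have h4 : r * (10 ^ 17 / δ * η) = 10 ^ 17 / δ * θ := by rw [hθ]; ring
        rw [h4]
        have h5 : (10 : ℝ) ^ 17 / δ * (δ / 10 ^ 16) ≤ 10 ^ 17 / δ * θ :=
          mul_le_mul_of_nonneg_left hc.le (by positivity)
        have h6 : (10 : ℝ) ^ 17 / δ * (δ / 10 ^ 16) = 10 := by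
          field_simp
        rw [h6] at h5
        linarith
      exact le_of_mul_le_mul_left h2 hr
    rw [hall, Finset.offDiag_card, Finset.card_univ, Fintype.card_fin] at hP
    have h2 : ((n * n - n : ℕ) : ℝ) = n * n - n := by
      rw [Nat.cast_sub (Nat.le_mul_self n), Nat.cast_mul]
    rw [h2] at hP
    have h3 : t ^ 3 ≤ t ^ 4 := by
      have : 1 ≤ t := le_trans (by norm_num) ht50
      exact pow_le_pow_right₀ this (by norm_num)
    have h4 : (n : ℝ) * n = t ^ 4 := by rw [← ht2]; ring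
    have h5 : (n : ℝ) ≤ 1 / 2 * (n * n) := by
      have : (2 : ℝ) * n ≤ n * n := mul_le_mul_of_nonneg_right
        (le_trans (by norm_num) hn') hnpos.le
      linarith
    have h6 : 0 < (n : ℝ) * n := by positivity
    have h7 : 1 / 10 ^ 30 * t ^ 3 ≤ 1 / 10 ^ 30 * t ^ 4 := mul_le_mul_of_nonneg_left h3 (by positivity)
    rw [← h4] at h7
    have h8 : (1 : ℝ) / 10 ^ 30 * (n * n) ≤ 1 / 4 * (n * n) :=
      mul_le_mul_of_nonneg_right (by norm_num) h6.le
    linarith
  -- the slope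
  have hcardR : (X.card : ℝ) = n := by rw [hcard]
  set g : ℝ := 2 * 10 ^ 12 * (e + 1) / n with hg
  have hE0 : 0 < e + 1 := by linarith
  have hg0 : 0 < g := by positivity
  have hng : n * g = 2 * 10 ^ 12 * (e + 1) := by rw [hg, mul_div_cancel₀ _ hnpos.ne']
  have hg8 : g ≤ 1 / 10 ^ 8 := by
    rw [hg, div_le_iff₀ hnpos]
    linarith
  have hTg : 5 * e / (X.card : ℝ) ≤ g / 10 ^ 11 := by
    rw [hcardR, hg, div_div, mul_comm (n : ℝ), ← div_div]
    apply div_le_div_of_nonneg_right _ hnpos.le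
    rw [le_div_iff₀ (by norm_num)]
    linarith
  have hng' : 2 * 10 ^ 12 * (e + 1) ≤ X.card * g := by
    rw [hcardR]
    exact hng.ge
  have hgδ : g ≤ δ / 10 ^ 6 := by
    rw [hg, div_le_div_iff₀ hnpos (by norm_num)]
    linarith
  have hSlp2 : Slp X (2 * θ) := by
    refine slp_of_strip hA hg0 hg8 hTg hng' hθ0.le hδ0 hδ1 (hθ16.trans ?_) hgδ ?_
    · exact div_le_div_of_nonneg_left hδ0.le (by norm_num) (by norm_num)
    intro y hy
    obtain ⟨i, rfl⟩ := hmemX y hy
    obtain ⟨v, hv, hvj⟩ := hst i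
    obtain ⟨w, hw, hwf⟩ := flat_of f hr hf hv
    refine ⟨w, hw, ?_⟩
    rcases hvj with hvj | hvj
    · left
      intro y' hy'
      obtain ⟨j, rfl⟩ := hmemX y' hy'
      rw [hwf, hθ]
      exact mul_le_mul_of_nonneg_left (hvj j) hr.le
    · right
      intro y' hy' hd
      obtain ⟨j, rfl⟩ := hmemX y' hy'
      rw [dist_comm, hf] at hd
      have h2 : dist (x i) (x j) ≤ δ * L := by
        have h3 : r * dist (x i) (x j) ≤ r * (δ * L) := by
          have h4 : δ * 1 ≤ δ * (r * L) := mul_le_mul_of_nonneg_left hrL hδ0.le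
          have h5 : δ * (r * L) = r * (δ * L) := by ring
          linarith
        exact le_of_mul_le_mul_left h3 hr
      have h6 := mul_le_mul_of_nonneg_left (hvj j h2) hr.le
      rw [hwf, abs_mul, abs_of_pos hr, hθ, dist_comm, hf]
      linarith
  set s : ℝ := 10 ^ 10 * θ with hs
  have hSlp : Slp X s := by
    intro y hy y' hy' hd
    refine (hSlp2 y hy y' hy' hd).trans ?_
    rw [hs]
    linarith
  refine near_contra hA ?_ (noCol_of hx f hcol) (noCirc_of hx f hr hf hcirc) (s := s)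
    (by positivity) ?_ ?_ hSlp ht50 (by rw [hcardR, ht2]) ?_
  · rw [hcardR]; exact hnE
  · rw [hs]
    have h2 : (10 : ℝ) ^ 10 * θ ≤ 10 ^ 10 * (δ / 10 ^ 16) :=
      mul_le_mul_of_nonneg_left hθ16 (by positivity)
    refine h2.trans ?_
    have h3 : (10 : ℝ) ^ 10 * (δ / 10 ^ 16) = δ / 10 ^ 6 := by ring
    rw [h3]
    exact div_le_div_of_nonneg_right (by linarith) (by norm_num)
  · rw [hcardR, hs]
    have h2 : (10 : ℝ) ^ 10 * 1 ≤ 10 ^ 10 * (n * θ) := mul_le_mul_of_nonneg_left hθn (by positivity)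
    linarith
  · refine le_trans ?_ hP
    have hsub : CP X (100 * s) ⊆ (Finset.univ.filter (fun p : Fin n × Fin n =>
        p.1 ≠ p.2 ∧ dist (x p.1) (x p.2) ≤ 10 ^ 17 / δ * η)).image
          fun p => (f (x p.1), f (x p.2)) := by
      intro p hp
      unfold CP at hp
      rw [Finset.mem_filter, Finset.mem_product] at hp
      obtain ⟨i, hi⟩ := hmemX p.1 hp.1.1
      obtain ⟨j, hj⟩ := hmemX p.2 hp.1.2
      rw [Finset.mem_image]
      refine ⟨(i, j), ?_, ?_⟩
      · rw [Finset.mem_filter]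
        refine ⟨Finset.mem_univ _, ?_, ?_⟩
        · intro hij
          simp only at hij
          exact hp.2.1 (by rw [← hi, ← hj, hij])
        · have h2 := hp.2.2
          rw [← hi, ← hj, dist_comm, hf] at h2
          have h3 : r * dist (x i) (x j) ≤ r * (10 ^ 17 / δ * η) := by
            refine h2.trans ?_
            rw [hs, hθ]
            have : 0 < r * η := by positivity
            have h4 : (100 : ℝ) * (10 ^ 10 * (r * η)) = 10 ^ 12 * (r * η) := by ring
            have h5 : r * (10 ^ 17 / δ * η) = 10 ^ 17 / δ * (r * η) := by ring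
            rw [h4, h5]
            apply mul_le_mul_of_nonneg_right _ this.le
            rw [le_div_iff₀ hδ0]
            linarith
          exact le_of_mul_le_mul_left h3 hr
      · simp only
        rw [hi, hj]
    exact_mod_cast (Finset.card_le_card hsub).trans Finset.card_image_le

end Pool.Agent.Vpn
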