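import Pool.Agent.Lib.Vpn.Polygon
import Pool.Agent.Lib.Vpn.Final

/-!
# The result (MP_733c86_co)
-/

set_option autoImplicit false

open Finset

namespace Pool.Agent.Vpn

theorem final_poly {n : ℕ} (hn : 10 ^ 200 ≤ n) {x : Fin n → EuclideanSpace ℝ (Fin 2)}
    (hx : Function.Injective x)
    (hcol : ∀ i j k : Fin n, i ≠ j → i ≠ k → j ≠ k →
      ¬ Collinear ℝ ({x i, x j, x k} : Set (EuclideanSpace ℝ (Fin 2))))
    (hcirc : ∀ i j k l : Fin n, i ≠ j → i ≠ k → i ≠ l → j ≠ k → j ≠ l → k ≠ l →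
      ¬ EuclideanGeometry.Cospherical
          ({x i, x j, x k, x l} : Set (EuclideanSpace ℝ (Fin 2))))
    (hvalid : ∀ i : Fin n, ∀ r : ℝ,
      (Finset.univ.filter (fun j : Fin n => j ≠ i ∧ dist (x i) (x j) = r)).card ≤ 2)
    {m : EuclideanSpace ℝ (Fin 2)} {ρ α : ℝ} (hρ : 0 < ρ)
    (hp : ∀ i : Fin n, dist (x i) (m + ρ • dir (α + 2 * Real.pi * i / n)) ≤
      1 / 10 ^ 50 * ρ / Real.sqrt n) :
    (1 + 1 / 100 / 10 ^ 50) * ((n : ℝ) / 2) ≤
      (((Finset.univ.filter (fun p : Fin n × Fin n => p.1 ≠ p.2)).image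
        (fun p : Fin n × Fin n => dist (x p.1) (x p.2))).card : ℝ) := by
  classical
  have hn' : (10 : ℝ) ^ 200 ≤ n := by exact_mod_cast hn
  have hnpos : (0 : ℝ) < n := lt_of_lt_of_le (by norm_num) hn'
  have hn0 : 0 < n := by exact_mod_cast hnpos
  set t : ℝ := Real.sqrt n with ht
  have ht2 : t ^ 2 = n := Real.sq_sqrt hnpos.le
  have ht100 : 10 ^ 100 ≤ t := by
    rw [ht]
    apply Real.le_sqrt_of_sq_le
    calc ((10 : ℝ) ^ 100) ^ 2 = (10 : ℝ) ^ 200 := by rw [← pow_mul]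
      _ ≤ (n : ℝ) := hn'
  have ht0 : 0 < t := lt_of_lt_of_le (by norm_num) ht100
  have ht3 : (n : ℝ) ^ ((3 : ℝ) / 2) = t ^ 3 := by
    rw [ht, Real.sqrt_eq_rpow, ← Real.rpow_natCast, ← Real.rpow_mul hnpos.le]
    norm_num
  set δ : ℝ := 1 / 10 ^ 50 * ρ / t with hδ
  have hδ0 : 0 < δ := by positivity
  have hδt : δ * t = 1 / 10 ^ 50 * ρ := by
    rw [hδ, div_mul_cancel₀ _ ht0.ne']
  have hδρ : δ ≤ ρ := by
    have h1 : δ * t ≤ ρ * t := by
      rw [hδt]
      have : (1 : ℝ) / 10 ^ 50 ≤ t := le_trans (by norm_num) ht100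
      calc 1 / 10 ^ 50 * ρ ≤ t * ρ := mul_le_mul_of_nonneg_right this hρ.le
        _ = ρ * t := by ring
    exact le_of_mul_le_mul_right h1 ht0
  have hnδ : 10 * ρ ≤ n * δ := by
    have h1 : (n : ℝ) * δ = 1 / 10 ^ 50 * t * ρ := by
      rw [← ht2]
      calc t ^ 2 * δ = t * (δ * t) := by ring
        _ = 1 / 10 ^ 50 * t * ρ := by rw [hδt]; ring
    rw [h1]
    apply mul_le_mul_of_nonneg_right _ hρ.le
    have h2 : (1 : ℝ) / 10 ^ 50 * 10 ^ 100 ≤ 1 / 10 ^ 50 * t :=
      mul_le_mul_of_nonneg_left ht100 (by positivity)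
    refine le_trans ?_ h2
    norm_num
  set a : Fin n → ℝ := fun i => α + 2 * Real.pi * i / n with ha
  have hchord : ∀ i j : Fin n, dist (m + ρ • dir (a i)) (m + ρ • dir (a j)) =
      ρ * ‖dir (a i) - dir (a j)‖ := by
    intro i j
    rw [dist_add_left, dist_eq_norm, ← smul_sub, norm_smul, Real.norm_eq_abs, abs_of_pos hρ]
  refine final_near (η := 2 * δ) (L := 4 * ρ) (δ := 1 / 100) (by norm_num) le_rfl
    (le_trans (by norm_num) hn) (by linarith) hx hcol hcirc hvalid ?_ (by linarith) ?_ ?_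
  · intro i j
    have h1 := dist_triangle4 (x i) (m + ρ • dir (a i)) (m + ρ • dir (a j)) (x j)
    have h2 := hp i
    have h3 := hp j
    rw [dist_comm (x j)] at h3
    have h4 : ρ * ‖dir (a i) - dir (a j)‖ ≤ ρ * 2 := by
      apply mul_le_mul_of_nonneg_left _ hρ.le
      have := norm_sub_le (dir (a i)) (dir (a j))
      rw [norm_dir, norm_dir] at this
      linarith
    rw [hchord] at h1
    linarith
  · intro i
    refine ⟨dir (a i), norm_dir _, Or.inl ?_⟩
    intro j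
    have h1 : x j - x i = ((x j - (m + ρ • dir (a j))) + ((m + ρ • dir (a i)) - x i)) +
        ρ • (dir (a j) - dir (a i)) := by
      rw [smul_sub]
      abel
    have h7 : inner ℝ (dir (a j) - dir (a i)) (dir (a i)) = Real.cos (a j - a i) - 1 := by
      rw [inner_sub_left, inner_dir, inner_dir, sub_self, Real.cos_zero]
    rw [h1, inner_add_left, inner_add_left, real_inner_smul_left, h7]
    have h2 := real_inner_le_norm (x j - (m + ρ • dir (a j))) (dir (a i))
    have h3 := real_inner_le_norm ((m + ρ • dir (a i)) - x i) (dir (a i))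
    rw [norm_dir, mul_one, ← dist_eq_norm] at h2 h3
    have h4 := hp j
    have h5 := hp i
    rw [dist_comm (x i)] at h5
    have h6 : ρ * (Real.cos (a j - a i) - 1) ≤ 0 :=
      mul_nonpos_of_nonneg_of_nonpos hρ.le (by linarith [Real.cos_le_one (a j - a i)])
    linarith
  · rw [ht3]
    set M : ℕ := ⌊t / 10 ^ 31⌋₊ with hM
    have hMle : (M : ℝ) ≤ t / 10 ^ 31 := Nat.floor_le (by positivity)
    have hsub : (Finset.univ.filter (fun p : Fin n × Fin n =>
        p.1 ≠ p.2 ∧ dist (x p.1) (x p.2) ≤ 10 ^ 17 / (1 / 100) * (2 * δ))) ⊆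
        ((Finset.univ : Finset (Fin n × Fin n)).filter fun p =>
          min ((p.1 : ℤ) - p.2).natAbs (n - ((p.1 : ℤ) - p.2).natAbs) ≤ M) := by
      intro p hpp
      rw [Finset.mem_filter] at hpp ⊢
      refine ⟨hpp.1, ?_⟩
      set k : ℕ := ((p.1 : ℤ) - p.2).natAbs with hk
      have hkn : k ≤ n := by
        have h1 := p.1.2
        have h2 := p.2.2
        omega
      rw [hM]
      apply Nat.le_floor
      have h1 := dist_triangle4 (m + ρ • dir (a p.1)) (x p.1) (x p.2) (m + ρ • dir (a p.2))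
      have h2 := hp p.1
      rw [dist_comm (x p.1)] at h2
      have h3 := hp p.2
      have h4 := hpp.2.2
      rw [hchord, norm_dir_sub'] at h1
      have h5 : |Real.sin ((a p.1 - a p.2) / 2)| = |Real.sin (Real.pi * k / n)| := by
        have e1 : (a p.1 - a p.2) / 2 = Real.pi * (((p.1 : ℤ) - p.2 : ℤ) : ℝ) / n := by
          rw [ha]
          push_cast
          ring
        rw [e1]
        rcases Int.natAbs_eq ((p.1 : ℤ) - p.2) with hh | hh
        · rw [hh, ← hk]
          simp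
        · rw [hh, ← hk]
          have e2 : Real.pi * ((-(k : ℤ) : ℤ) : ℝ) / n = -(Real.pi * k / n) := by
            push_cast
            ring
          rw [e2, Real.sin_neg, abs_neg]
      rw [h5] at h1
      have h6 := sin_chord hn0 hkn
      have h7 := le_abs_self (Real.sin (Real.pi * k / n))
      set q : ℝ := ((min k (n - k) : ℕ) : ℝ) with hq
      have h8 : ρ * (2 * (2 * q / n)) ≤ 3 * 10 ^ 19 * δ := by
        have h9 : ρ * (2 * (2 * q / n)) ≤ ρ * (2 * |Real.sin (Real.pi * k / n)|) := by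
          apply mul_le_mul_of_nonneg_left _ hρ.le
          linarith
        have h10 : 2 * δ ≤ 10 ^ 19 * δ := mul_le_mul_of_nonneg_right (by norm_num) hδ0.le
        linarith
      have h9 : ρ * (4 * q) ≤ ρ * (3 / 10 ^ 31 * t) := by
        have e1 : ρ * (4 * q) = ρ * (2 * (2 * q / n)) * n := by
          field_simp
          ring
        have e2 : 3 * 10 ^ 19 * δ * n = ρ * (3 / 10 ^ 31 * t) := by
          rw [← ht2]
          calc 3 * 10 ^ 19 * δ * t ^ 2 = 3 * 10 ^ 19 * (δ * t) * t := by ring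
            _ = ρ * (3 / 10 ^ 31 * t) := by rw [hδt]; ring
        rw [e1, ← e2]
        exact mul_le_mul_of_nonneg_right h8 hnpos.le
      have h10 := le_of_mul_le_mul_left h9 hρ
      have h11 : (3 : ℝ) / 10 ^ 31 * t = 3 * (t / 10 ^ 31) := by ring
      rw [h11] at h10
      have h12 : 0 ≤ t / 10 ^ 31 := by positivity
      linarith
    have h1 := (Finset.card_le_card hsub).trans (card_close n M)
    have h2 : ((Finset.univ.filter (fun p : Fin n × Fin n =>
        p.1 ≠ p.2 ∧ dist (x p.1) (x p.2) ≤ 10 ^ 17 / (1 / 100) * (2 * δ))).card : ℝ) ≤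
        n * (4 * M + 3) := by exact_mod_cast h1
    refine h2.trans ?_
    have h3 : (3 : ℝ) ≤ t / 10 ^ 31 := by
      rw [le_div_iff₀ (by norm_num)]
      exact le_trans (by norm_num) ht100
    rw [← ht2]
    calc t ^ 2 * (4 * M + 3) ≤ t ^ 2 * (5 * (t / 10 ^ 31)) := by
          apply mul_le_mul_of_nonneg_left _ (by positivity)
          linarith
      _ = 5 / 10 ^ 31 * t ^ 3 := by ring
      _ ≤ 1 / 10 ^ 30 * t ^ 3 := by
          apply mul_le_mul_of_nonneg_right _ (by positivity)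
          norm_num

theorem main :
    ∀ δ : ℝ, 0 < δ → ∃ c : ℝ, 0 < c ∧ ∃ C : ℝ, ∃ N : ℕ, ∀ n : ℕ, N ≤ n →
      ∀ x : Fin n → EuclideanSpace ℝ (Fin 2),
        Function.Injective x →
        (∀ i j k : Fin n, i ≠ j → i ≠ k → j ≠ k →
          ¬ Collinear ℝ ({x i, x j, x k} : Set (EuclideanSpace ℝ (Fin 2)))) →
        (∀ i j k l : Fin n, i ≠ j → i ≠ k → i ≠ l → j ≠ k → j ≠ l → k ≠ l →
          ¬ EuclideanGeometry.Cospherical
              ({x i, x j, x k, x l} : Set (EuclideanSpace ℝ (Fin 2)))) →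
        (∀ i : Fin n, ∀ r : ℝ,
          (Finset.univ.filter (fun j : Fin n => j ≠ i ∧ dist (x i) (x j) = r)).card ≤ 2) →
        ((∃ (m : EuclideanSpace ℝ (Fin 2)) (ρ α : ℝ), 0 < ρ ∧ ∀ i : Fin n,
            dist (x i) (m + ρ • !₂[Real.cos (α + 2 * Real.pi * i / n),
              Real.sin (α + 2 * Real.pi * i / n)]) ≤ c * ρ / Real.sqrt n) ∨
          ∃ η L : ℝ, (∀ i j : Fin n, dist (x i) (x j) ≤ L) ∧ L ≤ n * η ∧
            (∀ i : Fin n, ∃ v : EuclideanSpace ℝ (Fin 2), ‖v‖ = 1 ∧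
              ((∀ j : Fin n, inner ℝ (x j - x i) v ≤ η) ∨
                ∀ j : Fin n, dist (x i) (x j) ≤ δ * L →
                  |inner ℝ (x j - x i) v| ≤ η + 1 / 25 * dist (x i) (x j))) ∧
            ((Finset.univ.filter (fun p : Fin n × Fin n =>
              p.1 ≠ p.2 ∧ dist (x p.1) (x p.2) ≤ C * η)).card : ℝ) ≤
                c * (n : ℝ) ^ ((3 : ℝ) / 2)) →
        (1 + c) * ((n : ℝ) / 2) ≤
          (((Finset.univ.filter (fun p : Fin n × Fin n => p.1 ≠ p.2)).image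
            (fun p : Fin n × Fin n => dist (x p.1) (x p.2))).card : ℝ) := by
  intro δ' hδ'
  set δ : ℝ := min δ' (1 / 100) with hδ
  have hδ0 : 0 < δ := lt_min hδ' (by norm_num)
  have hδ1 : δ ≤ 1 / 100 := min_le_right _ _
  refine ⟨δ / 10 ^ 50, by positivity, 10 ^ 17 / δ, ⌈10 ^ 200 / δ⌉₊, ?_⟩
  intro n hn x hx hcol hcirc hvalid h
  have hn1 : 10 ^ 200 / δ ≤ (n : ℝ) := (Nat.le_ceil _).trans (by exact_mod_cast hn)
  have hn2 : 10 ^ 200 ≤ δ * n := by
    rw [div_le_iff₀ hδ0] at hn1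
    linarith
  have hn0 : (0 : ℝ) ≤ n := Nat.cast_nonneg _
  have hn3 : (10 : ℝ) ^ 200 ≤ n := by
    have : δ * n ≤ 1 * n := mul_le_mul_of_nonneg_right (by linarith) hn0
    linarith
  have hn4 : 10 ^ 200 ≤ n := by exact_mod_cast hn3
  have hc : δ / 10 ^ 50 ≤ 1 / 100 / 10 ^ 50 := div_le_div_of_nonneg_right hδ1 (by norm_num)
  rcases h with ⟨m, ρ, α, hρ, hp⟩ | ⟨η, L, h1, h1', h2, h3⟩
  · have h4 := final_poly hn4 hx hcol hcirc hvalid (m := m) (ρ := ρ) (α := α) hρ (by
      intro i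
      refine (hp i).trans ?_
      apply div_le_div_of_nonneg_right _ (Real.sqrt_nonneg _)
      apply mul_le_mul_of_nonneg_right _ hρ.le
      linarith)
    refine le_trans ?_ h4
    apply mul_le_mul_of_nonneg_right _ (by positivity)
    linarith
  · refine final_near hδ0 hδ1 (le_trans (by norm_num) hn4) (le_trans (by norm_num) hn2) hx hcol
      hcirc hvalid h1 h1' ?_ (h3.trans ?_)
    · intro i
      obtain ⟨v, hv, hv' | hv'⟩ := h2 i
      · exact ⟨v, hv, Or.inl hv'⟩
      · refine ⟨v, hv, Or.inr ?_⟩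
        intro j hj
        refine hv' j (hj.trans ?_)
        have hL0 : 0 ≤ L := dist_nonneg.trans (h1 i i)
        exact mul_le_mul_of_nonneg_right (min_le_left _ _) hL0
    · apply mul_le_mul_of_nonneg_right _ (by positivity)
      refine (div_le_div_of_nonneg_right hδ1 (by norm_num)).trans ?_
      norm_num

end Pool.Agent.Vpn
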