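import Mathlib

/-!
# Perturbed regular polygons (MP_733c86_co)
-/

set_option autoImplicit false

open Finset

namespace Pool.Agent.Vpn

/-- The point of angle `a` on the unit circle. -/
noncomputable def dir (a : ℝ) : EuclideanSpace ℝ (Fin 2) := !₂[Real.cos a, Real.sin a]

theorem norm_dir (a : ℝ) : ‖dir a‖ = 1 := by
  rw [dir, EuclideanSpace.norm_eq]
  simp [Fin.sum_univ_two]

theorem inner_dir (a b : ℝ) : inner ℝ (dir a) (dir b) = Real.cos (a - b) := by
  simp [dir, PiLp.inner_apply, Fin.sum_univ_two, Real.cos_sub]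
  ring

theorem norm_dir_sub (a b : ℝ) : ‖dir a - dir b‖ ^ 2 = (2 * Real.sin ((a - b) / 2)) ^ 2 := by
  rw [@norm_sub_sq_real, norm_dir, norm_dir, inner_dir, mul_pow, Real.sin_sq_eq_half_sub]
  have : 2 * ((a - b) / 2) = a - b := by ring
  rw [this]
  ring

theorem norm_dir_sub' (a b : ℝ) : ‖dir a - dir b‖ = 2 * |Real.sin ((a - b) / 2)| := by
  have h := norm_dir_sub a b
  have h2 : (2 * |Real.sin ((a - b) / 2)|) ^ 2 = (2 * Real.sin ((a - b) / 2)) ^ 2 := by
    rw [mul_pow, mul_pow, sq_abs]
  rw [← h2] at h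
  exact (pow_left_inj₀ (norm_nonneg _) (by positivity) (by norm_num)).1 h

/-- Jordan's inequality for the chords of a regular `n`-gon. -/
theorem sin_chord {n : ℕ} (hn : 0 < n) {k : ℕ} (hk : k ≤ n) :
    2 * (min k (n - k) : ℕ) / (n : ℝ) ≤ Real.sin (Real.pi * k / n) := by
  have hnR : (0 : ℝ) < n := by exact_mod_cast hn
  have hpi := Real.pi_pos
  rcases le_total k (n - k) with h | h
  · rw [min_eq_left h]
    have h2 : (2 : ℝ) * k ≤ n := by
      have : 2 * k ≤ n := by omega
      exact_mod_cast this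
    have h3 := Real.mul_le_sin (x := Real.pi * k / n) (by positivity) (by
      rw [div_le_div_iff₀ hnR (by norm_num)]
      nlinarith)
    refine le_trans (le_of_eq ?_) h3
    field_simp
  · rw [min_eq_right h]
    have hc : ((n - k : ℕ) : ℝ) = n - k := Nat.cast_sub hk
    have h2 : (n : ℝ) ≤ 2 * k := by
      have : n ≤ 2 * k := by omega
      exact_mod_cast this
    have hkn : (k : ℝ) ≤ n := by exact_mod_cast hk
    have h4 : Real.sin (Real.pi * k / n) = Real.sin (Real.pi * (n - k) / n) := by
      rw [← Real.sin_pi_sub]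
      congr 1
      field_simp
    rw [h4, hc]
    have h3 := Real.mul_le_sin (x := Real.pi * (n - k) / n) (by
      apply div_nonneg _ hnR.le
      exact mul_nonneg hpi.le (by linarith)) (by
      rw [div_le_div_iff₀ hnR (by norm_num)]
      nlinarith)
    refine le_trans (le_of_eq ?_) h3
    field_simp

/-- The number of pairs of indices which are cyclically close. -/
theorem card_close (n M : ℕ) :
    ((Finset.univ : Finset (Fin n × Fin n)).filter fun p =>
      min ((p.1 : ℤ) - p.2).natAbs (n - ((p.1 : ℤ) - p.2).natAbs) ≤ M).card ≤ n * (4 * M + 3) := by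
  classical
  set S : Finset ℤ := Finset.Icc (-(M : ℤ)) M ∪ (Finset.Icc ((n : ℤ) - M) n ∪
    Finset.Icc (-(n : ℤ)) (-((n : ℤ) - M))) with hS
  have hScard : S.card ≤ 4 * M + 3 := by
    have h1 := Finset.card_union_le (Finset.Icc (-(M : ℤ)) M) (Finset.Icc ((n : ℤ) - M) n ∪
      Finset.Icc (-(n : ℤ)) (-((n : ℤ) - M)))
    have h2 := Finset.card_union_le (Finset.Icc ((n : ℤ) - M) n)
      (Finset.Icc (-(n : ℤ)) (-((n : ℤ) - M)))
    simp only [Int.card_Icc] at h1 h2
    rw [← hS] at h1
    omega
  have hinj : ((Finset.univ : Finset (Fin n × Fin n)).filter fun p =>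
      min ((p.1 : ℤ) - p.2).natAbs (n - ((p.1 : ℤ) - p.2).natAbs) ≤ M).card ≤
        ((Finset.univ : Finset (Fin n)) ×ˢ S).card := by
    apply Finset.card_le_card_of_injOn (fun p => (p.1, (p.1 : ℤ) - p.2))
    · intro p hp
      rw [Finset.mem_coe, Finset.mem_filter] at hp
      have hp2 := hp.2
      have h1 := p.1.2
      have h2 := p.2.2
      rw [Finset.mem_coe, Finset.mem_product]
      refine ⟨Finset.mem_univ _, ?_⟩
      simp only [hS, Finset.mem_union, Finset.mem_Icc]
      omega
    · intro p _ q _ hpq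
      simp only [Prod.mk.injEq] at hpq
      have h1 : (p.2 : ℤ) = q.2 := by
        have := hpq.2
        rw [hpq.1] at this
        omega
      have h2 : p.2 = q.2 := by
        apply Fin.ext
        exact_mod_cast h1
      exact Prod.ext hpq.1 h2
  refine hinj.trans ?_
  rw [Finset.card_product, Finset.card_univ, Fintype.card_fin]
  exact Nat.mul_le_mul_left _ hScard

end Pool.Agent.Vpn
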