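import Pool.Agent.Lib.Vps.StabFinal
import Pool.Agent.Lib.Vpt.Slp
import Pool.Agent.Lib.Vpd.Final

/-!
# Stability with the distance to the boundary of the convex hull (MP_733c86_co)
-/

set_option autoImplicit false

open Finset Pool.Agent.Vps Pool.Agent.Vps.StabAux
open scoped ComplexConjugate

namespace Pool.Agent.Vpn

/-- All points are close to the boundary of the convex hull (from the proof of `Vpt.SlpAux.slope_all`). -/
theorem depth_all {X : Finset ℂ} {e : ℝ} (h : Ann X e (5 * e / X.card))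
    (hn : 10 ^ 40 * (e + 1) ≤ X.card) :
    ∀ x ∈ X, ((1 + (10 ^ 5 * (e + 1) / X.card) ^ 2 : ℝ) : ℂ) * x ∉
      convexHull ℝ (X : Set ℂ) := by
  have he := h.nonneg
  obtain ⟨c1, c3, c4, c5, c6, c7, c8⟩ := Pool.Agent.Vpt.SlpAux.consts he hn
  have hn0 : (0 : ℝ) < X.card := by linarith [show (0 : ℝ) < 10 ^ 40 by positivity]
  set t : ℝ := 10 ^ 5 * (e + 1) / X.card with ht
  have ht0 : 0 < t := by positivity
  have hnt : X.card * t = 10 ^ 5 * (e + 1) := by
    rw [ht, mul_div_cancel₀ _ hn0.ne']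
  have ht1 : t ≤ 1 / 10 ^ 30 := by
    rw [ht, div_le_div_iff₀ hn0 (by positivity)]
    nlinarith
  obtain ⟨ρ, hρ, hlo, hexc⟩ := exists_rho h.toSys h.nonempty
    (fun x hx => top_big h c3 c4 c5 c6 hx)
  have hTt : 100 * (5 * e / X.card) ≤ t := by
    rw [ht, ← mul_div_assoc]
    apply div_le_div_of_nonneg_right _ hn0.le
    nlinarith
  have ht4 : t ≤ 1 / 10 ^ 4 := ht1.trans (by norm_num)
  intro x hx hcon
  have h1 := top_count h c3 c4 c5 c6 ht0 ht4 hTt hnt.ge hρ hlo hexc hx
  have h2 := depth h (c7.trans (by norm_num)) hρ hexc (w := 3 * t ^ 2) (s := t ^ 2)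
    (by positivity) (by nlinarith) (by positivity) hx hcon
  have h3 : 50 * (e + 1) ≤ ((top X x (ρ - 3 * t ^ 2)).card : ℝ) := by
    have : (X.card : ℝ) * t / 2000 = 50 * (e + 1) := by rw [hnt]; ring
    rwa [this] at h1
  have ht2 : 0 < t ^ 2 := by positivity
  have h4 : 3 * t ^ 2 * (50 * (e + 1) - (9 * e + 6)) ≤
      3 * t ^ 2 * (((top X x (ρ - 3 * t ^ 2)).card : ℝ) - (9 * e + 6)) :=
    mul_le_mul_of_nonneg_left (by linarith) (by positivity)
  have h5 : 3 * t ^ 2 * (50 * (e + 1) - (9 * e + 6)) ≤ (10 * e + 6) * (3 * t ^ 2) := h4.trans h2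
  have h6 : 3 * t ^ 2 * (50 * (e + 1) - (9 * e + 6)) - (10 * e + 6) * (3 * t ^ 2) =
      3 * t ^ 2 * (31 * e + 38) := by ring
  have h7 : 0 < 3 * t ^ 2 * (31 * e + 38) := by positivity
  linarith

/-- A point outside the convex hull is separated. -/
theorem strip_of {X : Finset ℂ} {x : ℂ} {s : ℝ}
    (hdep : ((1 + s : ℝ) : ℂ) * x ∉ convexHull ℝ (X : Set ℂ)) (hs : 0 ≤ s) (hne : X.Nonempty) :
    ∃ w : ℂ, ‖w‖ = 1 ∧ ∀ y ∈ X, inner ℝ (y - x) w ≤ s * ‖x‖ := by
  have hclosed : IsClosed (convexHull ℝ (X : Set ℂ)) :=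
    (X.finite_toSet.isCompact_convexHull ℝ).isClosed
  obtain ⟨f, u, hf1, hf2⟩ := geometric_hahn_banach_closed_point (convex_convexHull ℝ _) hclosed hdep
  set w0 : ℂ := (InnerProductSpace.toDual ℝ ℂ).symm f with hw0
  have hfw : ∀ z : ℂ, f z = inner ℝ z w0 := by
    intro z
    rw [real_inner_comm, hw0, InnerProductSpace.toDual_symm_apply]
  obtain ⟨y0, hy0⟩ := hne
  have hlt : ∀ y ∈ X, f y < f (((1 + s : ℝ) : ℂ) * x) := fun y hy =>
    (hf1 y (subset_convexHull ℝ _ (by exact_mod_cast hy))).trans hf2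
  have hw0ne : w0 ≠ 0 := by
    intro h0
    have h1 := hlt y0 hy0
    rw [hfw, hfw, h0, inner_zero_right, inner_zero_right] at h1
    exact lt_irrefl _ h1
  have hnorm : 0 < ‖w0‖ := norm_pos_iff.2 hw0ne
  refine ⟨((‖w0‖⁻¹ : ℝ)) • w0, ?_, ?_⟩
  · rw [norm_smul, norm_inv, norm_norm, inv_mul_cancel₀ hnorm.ne']
  · intro y hy
    have h1 := hlt y hy
    have h2 : ((1 + s : ℝ) : ℂ) * x = (1 + s) • x := (Complex.real_smul).symm
    rw [hfw, hfw, h2, real_inner_smul_left] at h1
    have h3 : inner ℝ x w0 ≤ ‖x‖ * ‖w0‖ := real_inner_le_norm x w0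
    rw [real_inner_smul_right, inner_sub_left]
    have h4 : inner ℝ y w0 - inner ℝ x w0 ≤ s * (‖x‖ * ‖w0‖) := by
      have := mul_le_mul_of_nonneg_left h3 hs
      linarith
    have h5 : ‖w0‖⁻¹ * (inner ℝ y w0 - inner ℝ x w0) ≤ ‖w0‖⁻¹ * (s * (‖x‖ * ‖w0‖)) :=
      mul_le_mul_of_nonneg_left h4 (by positivity)
    refine h5.trans (le_of_eq ?_)
    field_simp

/-- The pull-back of a direction by an affine similarity. -/
theorem pull_of (f : EuclideanSpace ℝ (Fin 2) ≃ᵃ[ℝ] ℂ) {κ : ℝ} (hκ : 0 < κ)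
    (hf : ∀ a b, dist (f a) (f b) = κ * dist a b) {w : ℂ} (hw : ‖w‖ = 1) :
    ∃ v : EuclideanSpace ℝ (Fin 2), ‖v‖ = 1 ∧
      ∀ a b, inner ℝ (f b - f a) w = κ * inner ℝ (b - a) v := by
  have hmap : ∀ a b, f.linear (b - a) = f b - f a := by
    intro a b
    exact AffineMap.linearMap_vsub (f : EuclideanSpace ℝ (Fin 2) →ᵃ[ℝ] ℂ) b a
  have hlin : ∀ v, ‖f.linear v‖ = κ * ‖v‖ := by
    intro v
    have h1 := hf v 0
    rw [dist_eq_norm, dist_eq_norm, ← hmap, sub_zero] at h1
    exact h1
  have hinner : ∀ v v', inner ℝ (f.linear v) (f.linear v') = κ ^ 2 * inner ℝ v v' := by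
    intro v v'
    rw [real_inner_eq_norm_add_mul_self_sub_norm_mul_self_sub_norm_mul_self_div_two,
      real_inner_eq_norm_add_mul_self_sub_norm_mul_self_sub_norm_mul_self_div_two, ← map_add,
      hlin, hlin, hlin]
    ring
  set v0 := f.linear.symm w with hv0
  have hfv : f.linear v0 = w := f.linear.apply_symm_apply w
  have hn0 : κ * ‖v0‖ = 1 := by rw [← hlin, hfv, hw]
  refine ⟨κ • v0, ?_, ?_⟩
  · rw [norm_smul, Real.norm_eq_abs, abs_of_pos hκ, hn0]
  · intro a b
    rw [← hmap, real_inner_smul_right]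
    conv_lhs => rw [← hfv]
    rw [hinner]
    ring

/-- The stability theorem, with the distance to the boundary of the convex hull. -/
theorem stability :
    ∃ C : ℝ, ∀ n : ℕ, 2 ≤ n → ∀ x : Fin n → EuclideanSpace ℝ (Fin 2),
        Function.Injective x →
        (∀ i : Fin n, ∀ r : ℝ,
          (Finset.univ.filter (fun j : Fin n => j ≠ i ∧ dist (x i) (x j) = r)).card ≤ 2) →
        ∀ D : ℝ, D = (((Finset.univ.filter (fun p : Fin n × Fin n => p.1 ≠ p.2)).image
            (fun p : Fin n × Fin n => dist (x p.1) (x p.2))).card : ℝ) →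
        ∃ m : EuclideanSpace ℝ (Fin 2), ∃ ρ : ℝ, 0 < ρ ∧
          (∀ i : Fin n, |dist (x i) m - ρ| ≤ C * ((2 * D - n + 2) / n) * ρ) ∧
          (∀ i : Fin n, ∃ v : EuclideanSpace ℝ (Fin 2), ‖v‖ = 1 ∧
            ∀ j : Fin n, inner ℝ (x j - x i) v ≤ C * ((2 * D - n + 2) / n) ^ 2 * ρ) ∧
          ∀ v : EuclideanSpace ℝ (Fin 2), v ≠ 0 → ∀ t : ℝ, 0 ≤ t → t ≤ Real.pi →
            |((Finset.univ.filter
              (fun i : Fin n => InnerProductGeometry.angle (x i - m) v ≤ t)).card : ℝ) -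
                n * t / Real.pi| ≤ C * (2 * D - n + 2) := by
  classical
  refine ⟨10 ^ 81, ?_⟩
  intro n hn2 x hx hvalid D hD
  obtain ⟨f, κ, hκ, hf, h0, h1⟩ := exists_similarity hn2 x hx
  have hinj : Function.Injective (fun i => f (x i)) := fun i j hij => hx (f.injective hij)
  have hcard : (univ.image fun i => f (x i)).card = n := by
    rw [Finset.card_image_of_injective _ hinj]; simp
  have hsys := sys_of (le_trans (by norm_num) hn2) hx f hκ hf hvalid
  rw [← hD] at hsys
  have he := hsys.nonneg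
  have hnR : (2 : ℝ) ≤ n := by exact_mod_cast hn2
  have hpi := Real.pi_pos
  obtain ⟨e, hedef⟩ : ∃ e, e = 2 * D - ((n : ℝ) - 1) := ⟨_, rfl⟩
  rw [← hedef] at hsys he
  have hE : 2 * D - n + 2 = e + 1 := by rw [hedef]; ring
  rw [hE]
  rcases le_or_gt (10 ^ 21 * (e + 1)) (n : ℝ) with hbig | hsmall
  · have hX0 : ∑ z ∈ univ.image (fun i => f (x i)), z = 0 := by
      rw [Finset.sum_image (fun a _ b _ hab => hinj hab)]; exact h0
    have hX1 : ∑ z ∈ univ.image (fun i => f (x i)), ‖z‖ ^ 2 =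
        ((univ.image fun i => f (x i)).card : ℝ) := by
      rw [Finset.sum_image (fun a _ b _ hab => hinj hab), h1, hcard]
    have hne : (univ.image fun i => f (x i)).Nonempty := by
      rw [← Finset.card_pos, hcard]; omega
    have hA := annulus hsys hne hX0 hX1 (by rw [hcard]; norm_num at hbig; linarith)
    have hunif := fun (u : Cir) {t : ℝ} (ht0 : 0 ≤ t) (ht : t ≤ Real.pi) =>
      arcs_uniform hA (by rw [hcard]; exact hbig) u ht0 ht
    rw [hcard] at hA
    simp only [hcard] at hunif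
    have hT1 : 5 * e / n < 1 := by
      rw [div_lt_one (by linarith)]
      norm_num at hbig
      linarith
    have hm0 : f (f.symm 0) = 0 := f.apply_symm_apply 0
    have hnorm : ∀ i, ‖f (x i)‖ = κ * dist (x i) (f.symm 0) := by
      intro i
      rw [← hf, hm0, dist_zero_right]
    have hann : ∀ i, |‖f (x i)‖ - 1| ≤ 5 * e / n := fun i =>
      near_one (hA.ann _ (Finset.mem_image_of_mem _ (Finset.mem_univ i)))
    refine ⟨f.symm 0, 1 / κ, by positivity, ?_, ?_, ?_⟩
    · intro i
      have h2 : dist (x i) (f.symm 0) - 1 / κ = (‖f (x i)‖ - 1) / κ := by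
        rw [hnorm]
        field_simp
      rw [h2, abs_div, abs_of_pos hκ]
      have h3 : 10 ^ 81 * ((e + 1) / n) * (1 / κ) = (10 ^ 81 * (e + 1) / n) / κ := by ring
      rw [h3]
      refine div_le_div_of_nonneg_right ((hann i).trans ?_) hκ.le
      refine div_le_div_of_nonneg_right ?_ (by linarith)
      norm_num
      linarith
    · intro i
      rcases le_or_gt (10 ^ 40 * (e + 1)) (n : ℝ) with hb40 | hs40
      · have hA' : Ann (univ.image fun i => f (x i)) e
            (5 * e / ((univ.image fun i => f (x i)).card : ℝ)) := by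
          rw [hcard]; exact hA
        have hd := depth_all hA' (by rw [hcard]; exact hb40) (f (x i))
          (Finset.mem_image_of_mem _ (Finset.mem_univ i))
        obtain ⟨w, hw, hwy⟩ := strip_of hd (by positivity) hne
        obtain ⟨v, hv, hvf⟩ := pull_of f hκ hf hw
        refine ⟨v, hv, ?_⟩
        intro j
        have h2 := hwy (f (x j)) (Finset.mem_image_of_mem _ (Finset.mem_univ j))
        rw [hvf, hcard] at h2
        have h3 : ‖f (x i)‖ ≤ 2 := by
          have := abs_le.1 (hann i)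
          linarith
        have h4 : (10 ^ 5 * (e + 1) / n) ^ 2 * ‖f (x i)‖ ≤ (10 ^ 5 * (e + 1) / n) ^ 2 * 2 :=
          mul_le_mul_of_nonneg_left h3 (by positivity)
        have h5 : (10 ^ 5 * (e + 1) / n) ^ 2 * 2 ≤ 10 ^ 81 * ((e + 1) / n) ^ 2 := by
          have : (10 ^ 5 * (e + 1) / n) ^ 2 * 2 = 2 * 10 ^ 10 * ((e + 1) / n) ^ 2 := by ring
          rw [this]
          exact mul_le_mul_of_nonneg_right (by norm_num) (by positivity)
        have h6 : κ * inner ℝ (x j - x i) v ≤ 10 ^ 81 * ((e + 1) / n) ^ 2 := by linarith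
        rw [← mul_div_assoc, mul_one, le_div_iff₀ hκ]
        linarith
      · have hhalf : 1 / 10 ^ 40 ≤ (e + 1) / n := by
          rw [div_le_div_iff₀ (by norm_num) (by linarith)]
          linarith
        have hsq : (1 / 10 ^ 40) ^ 2 ≤ ((e + 1) / (n : ℝ)) ^ 2 :=
          pow_le_pow_left₀ (by norm_num) hhalf 2
        obtain ⟨v, hv⟩ : ∃ v : EuclideanSpace ℝ (Fin 2), ‖v‖ = 1 :=
          ⟨EuclideanSpace.single 0 1, by simp⟩
        refine ⟨v, hv, ?_⟩
        intro j
        have h2 := real_inner_le_norm (x j - x i) v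
        rw [hv, mul_one, ← dist_eq_norm] at h2
        have h3 : κ * dist (x j) (x i) ≤ 4 := by
          rw [← hf, dist_eq_norm]
          have h4 := norm_sub_le (f (x j)) (f (x i))
          have h5 := abs_le.1 (hann i)
          have h6 := abs_le.1 (hann j)
          linarith
        have h4 : κ * inner ℝ (x j - x i) v ≤ κ * dist (x j) (x i) :=
          mul_le_mul_of_nonneg_left h2 hκ.le
        have h5 : (10 : ℝ) ^ 81 * (1 / 10 ^ 40) ^ 2 ≤ 10 ^ 81 * ((e + 1) / n) ^ 2 :=
          mul_le_mul_of_nonneg_left hsq (by positivity)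
        have h6 : (4 : ℝ) ≤ 10 ^ 81 * (1 / 10 ^ 40) ^ 2 := by norm_num
        rw [← mul_div_assoc, mul_one, le_div_iff₀ hκ]
        linarith
    · intro v hv t ht0 ht
      obtain ⟨L, hL⟩ : ∃ L : EuclideanSpace ℝ (Fin 2) →ₗ[ℝ] ℂ, L = f.linear.toLinearMap :=
        ⟨_, rfl⟩
      have hLdiff : ∀ a b, L (a - b) = f a - f b := by
        intro a b
        have := (f : EuclideanSpace ℝ (Fin 2) →ᵃ[ℝ] ℂ).linearMap_vsub a b
        rw [hL]
        exact this
      have hLn : ∀ a, ‖L a‖ = κ * ‖a‖ := by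
        intro a
        have h2 := hLdiff a 0
        rw [sub_zero] at h2
        rw [h2, ← dist_eq_norm, hf, dist_zero_right]
      have hLv : L v ≠ 0 := by
        rw [← norm_pos_iff, hLn]
        exact mul_pos hκ (norm_pos_iff.2 hv)
      have hfx : ∀ i, f (x i) ≠ 0 := by
        intro i h2
        have := hann i
        rw [h2, norm_zero, zero_sub, abs_neg, abs_one] at this
        linarith
      have hangle : ∀ i, InnerProductGeometry.angle (x i - f.symm 0) v =
          dist (ang (f (x i))) (ang (L v)) := by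
        intro i
        rw [← angle_map hκ hLn, hLdiff, hm0, sub_zero, angle_eq (hfx i) hLv]
      have hcount : (Finset.univ.filter
          (fun i : Fin n => InnerProductGeometry.angle (x i - f.symm 0) v ≤ t)).card =
          arcN (univ.image fun i => f (x i)) (ang (L v)) t := by
        unfold arcN
        rw [Finset.filter_image, Finset.card_image_of_injective _ hinj]
        simp only [hangle]
      rw [hcount]
      refine (hunif (ang (L v)) ht0 ht).trans ?_
      norm_num
      linarith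
  · obtain ⟨i0, -, hmax⟩ := Finset.exists_max_image (Finset.univ : Finset (Fin n))
      (fun i => dist (x i) (x ⟨0, by omega⟩)) ⟨⟨0, by omega⟩, Finset.mem_univ _⟩
    have hρ : 0 < dist (x i0) (x ⟨0, by omega⟩) := by
      have h2 := hmax ⟨1, by omega⟩ (Finset.mem_univ _)
      have h3 : 0 < dist (x ⟨1, by omega⟩) (x ⟨0, by omega⟩) := by
        rw [dist_pos]
        intro h4
        have := hx h4
        simp at this
      linarith
    have hq : 1 / 10 ^ 21 ≤ (e + 1) / (n : ℝ) := by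
      rw [div_le_div_iff₀ (by norm_num) (by linarith)]
      linarith
    refine ⟨x ⟨0, by omega⟩, dist (x i0) (x ⟨0, by omega⟩), hρ, ?_, ?_, ?_⟩
    · intro i
      have h2 := hmax i (Finset.mem_univ _)
      have h3 : 0 ≤ dist (x i) (x ⟨0, by omega⟩) := dist_nonneg
      have h4 : 1 ≤ 10 ^ 81 * ((e + 1) / n) := by
        have h6 : (10 : ℝ) ^ 81 * (1 / 10 ^ 21) ≤ 10 ^ 81 * ((e + 1) / n) :=
          mul_le_mul_of_nonneg_left hq (by positivity)
        refine le_trans ?_ h6
        norm_num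
      have h5 : |dist (x i) (x ⟨0, by omega⟩) - dist (x i0) (x ⟨0, by omega⟩)| ≤
          dist (x i0) (x ⟨0, by omega⟩) := by
        rw [abs_le]
        constructor <;> linarith
      calc _ ≤ _ := h5
        _ = 1 * dist (x i0) (x ⟨0, by omega⟩) := (one_mul _).symm
        _ ≤ _ := mul_le_mul_of_nonneg_right h4 hρ.le
    · intro i
      have hsq : (1 / 10 ^ 21) ^ 2 ≤ ((e + 1) / (n : ℝ)) ^ 2 :=
        pow_le_pow_left₀ (by norm_num) hq 2
      obtain ⟨v, hv⟩ : ∃ v : EuclideanSpace ℝ (Fin 2), ‖v‖ = 1 :=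
        ⟨EuclideanSpace.single 0 1, by simp⟩
      refine ⟨v, hv, ?_⟩
      intro j
      have h2 := real_inner_le_norm (x j - x i) v
      rw [hv, mul_one, ← dist_eq_norm] at h2
      have h3 := dist_triangle_right (x j) (x i) (x ⟨0, by omega⟩)
      have h4 := hmax i (Finset.mem_univ _)
      have h5 := hmax j (Finset.mem_univ _)
      have h6 : (2 : ℝ) ≤ 10 ^ 81 * ((e + 1) / n) ^ 2 := by
        have h7 : (10 : ℝ) ^ 81 * (1 / 10 ^ 21) ^ 2 ≤ 10 ^ 81 * ((e + 1) / n) ^ 2 :=
          mul_le_mul_of_nonneg_left hsq (by positivity)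
        refine le_trans ?_ h7
        norm_num
      have h8 := mul_le_mul_of_nonneg_right h6 hρ.le
      linarith
    · intro v _ t ht0 ht
      have h2 : ((Finset.univ.filter
          (fun i : Fin n => InnerProductGeometry.angle (x i - x ⟨0, by omega⟩) v ≤ t)).card : ℝ)
          ≤ n := by
        have := Finset.card_filter_le (Finset.univ : Finset (Fin n))
          (fun i : Fin n => InnerProductGeometry.angle (x i - x ⟨0, by omega⟩) v ≤ t)
        rw [Finset.card_univ, Fintype.card_fin] at this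
        exact_mod_cast this
      have h3 : 0 ≤ n * t / Real.pi := by positivity
      have h4 : n * t / Real.pi ≤ n := by
        rw [div_le_iff₀ hpi]
        exact mul_le_mul_of_nonneg_left ht (by linarith)
      have h5 : (0 : ℝ) ≤ ((Finset.univ.filter
          (fun i : Fin n => InnerProductGeometry.angle (x i - x ⟨0, by omega⟩) v ≤ t)).card : ℝ) :=
        Nat.cast_nonneg _
      rw [abs_le]
      constructor <;> linarith

end Pool.Agent.Vpn
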